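import Pool.Agent.Y305.HG.Gau
import Pool.Agent.Y340.BC.Lin
import Pool.Agent.Y785.BC.Cut
import Pool.Agent.Y785.BC.Emb
import Pool.Agent.Y764.BC.Pot
import Pool.Agent.Y96.BC.Qsm
import Pool.Agent.Y446.BC.Fou
import Pool.Agent.Y325.BC.Gr
import Pool.Agent.Y325.BC.Bd
import Pool.Agent.Y325.BC.Cal
import Pool.Agent.Y688.BC.St
import Pool.Agent.Y897.BC.Tra
import Pool.Agent.Y305.BC.Can

/-! The current of project BC with the explicit set of genuine singularities. -/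

set_option autoImplicit false

open MeasureTheory Metric Set Filter Topology
open scoped ContDiff ENNReal NNReal

namespace Pool.Agent.Y305.HG

open Pool.Agent.Y305.BC

theorem assembly' (hCAN : S_CAN) (hPOT : S_POT) (hQSM : S_QSM) (hFOU : S_FOU)
    (hGR : S_GR) (hBD : S_BD) (hST : S_ST) (hCAL : S_CAL) (hLIN : S_LIN) (hFAR : S_FAR)
    (hCUT : S_CUT) (hTRA : S_TRA) (hEMB : S_EMB) :
    ∃ (c : Fin 2 → ℝ → E) (T : F2 → ℝ) (P : ℂ → ℂ), ClosedCurves c ∧ Minimizing c T ∧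
      ∀ x ∈ KK, Genuine c T (pt (ex x) (P (ex x))) := by
  have hc := hCAN
  obtain ⟨hKc, hKs, hxx, hcc, h01, hloc, hout, -, -⟩ := hc
  obtain ⟨q, RR, c0, hPot⟩ := hPOT hKc hxx hcc
  obtain ⟨q', nq, hq⟩ := hQSM q RR c0 hKc hPot
  have hchi : ∀ t, |chi t| ≤ 1 := by
    intro t
    rcases h01 t with h | h <;> rw [h] <;> norm_num
  obtain ⟨sc, dc⟩ := hq chi hchi hloc
  have sq : ContDiff ℝ ∞ (fun x : ℝ => q (ex x)) := by
    have h1 := (hq (fun _ => 1) (fun t => by norm_num)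
      (fun t _ => Eventually.of_forall fun s => rfl)).1
    simpa using h1
  obtain ⟨P, P', M, M', nP, nM, sP, sM, hpm⟩ := hFOU _ sc (fun x hx => by
    rw [hout x hx]
    simp)
  obtain ⟨hc0, hRo, hRd, hRq, hq0, hR1, -⟩ := hPot
  have hD : Dat P P' q q' M M' := by
    refine ⟨nP, nq, nM, hq0, fun z hz hzK => hRq z (hR1 z hz hzK z ?_), hpm⟩
    rw [sub_self, norm_zero]
    positivity
  have hE : Dat2 P q q' M := ⟨sP, sM, sq, sc, dc⟩
  refine ⟨cu P q M, TTT P (fun z => P z - q z) M, P, closed_cu hCAN hD hE, ?_, ?_⟩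
  · exact mini hGR hCAL hLIN hFAR hCUT nP (nice_sub nP nq) nM (has_bd hCAN hGR hBD hST hD hE)
  · exact fun x hx => genuine hCAN hTRA hGR hEMB hD hx

theorem main : ∃ (c : Fin 2 → ℝ → E) (T : F2 → ℝ), ClosedCurves c ∧ Minimizing c T ∧
    ∀ U : ℕ → Set E, {x | Genuine c T x} ⊆ ⋃ n, U n → 1 / 64 ≤ ∑' n, gauge (ediam (U n)) := by
  obtain ⟨c, T, P, h1, h2, h3⟩ := assembly' Pool.Agent.Y305.BC.can Pool.Agent.Y764.BC.pot
    Pool.Agent.Y96.BC.qsm Pool.Agent.Y446.BC.fou Pool.Agent.Y325.BC.gr_ok Pool.Agent.Y325.BC.bd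
    Pool.Agent.Y688.BC.st Pool.Agent.Y325.BC.cal Pool.Agent.Y340.BC.lin Pool.Agent.Y340.BC.far
    Pool.Agent.Y785.BC.cut Pool.Agent.Y897.BC.Tra.tra Pool.Agent.Y785.BC.emb
  exact ⟨c, T, h1, h2, fun U hU => cover Pool.Agent.Y305.BC.can.2.1 P (S := {x | Genuine c T x})
    h3 U hU⟩

end Pool.Agent.Y305.HG
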