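import Pool.Agent.Y305.BC.As5
import Pool.Agent.Y361.BC.Dim

/-! The Hausdorff content of the singular set with respect to the gauge `r (1 + |log r|)^4`. -/

set_option autoImplicit false

open MeasureTheory Metric Set Filter Topology
open scoped ContDiff ENNReal NNReal

namespace Pool.Agent.Y305.HG

open Pool.Agent.Y305.BC (KK cc ex pt E)
open Pool.Agent.Y361.BC (sp sp_pos cc_sep first_diff yy ff ff_cc Ico_sub)

/-- the gauge `r (1 + |log r|)^4` -/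
noncomputable def gauge (r : ℝ≥0∞) : ℝ≥0∞ := r * ENNReal.ofReal ((1 + |Real.log r.toReal|) ^ 4)

theorem num {ρ : ℝ} {n : ℕ} (h : sp n ≤ ρ) :
    ((2 : ℝ) ^ n)⁻¹ ≤ 64 * (ρ * (1 + |Real.log ρ|) ^ 4) := by
  classical
  have hex : ∃ N, sp N ≤ ρ := ⟨n, h⟩
  obtain ⟨N, hNs, hNn, hmin⟩ : ∃ N, sp N ≤ ρ ∧ N ≤ n ∧ ∀ m < N, ρ < sp m :=
    ⟨Nat.find hex, Nat.find_spec hex, Nat.find_min' hex h, fun m hm =>
      not_le.1 (Nat.find_min hex hm)⟩
  have hρ : 0 < ρ := (sp_pos N).trans_le hNs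
  have e1 : ((2 : ℝ) ^ n)⁻¹ ≤ ((2 : ℝ) ^ N)⁻¹ :=
    inv_anti₀ (by positivity) (pow_le_pow_right₀ (by norm_num) hNn)
  refine e1.trans ?_
  have hL : ((N : ℝ) + 2) / 2 ≤ 1 + |Real.log ρ| := by
    rcases N with _ | m
    · have := abs_nonneg (Real.log ρ)
      norm_num
    · have h1 := hmin m (by omega)
      have h2 : sp m ≤ (1 / 2) ^ (m + 2) := by
        unfold sp
        have h3 : 1 / ((m : ℝ) + 2) ^ 4 ≤ 1 := by
          rw [div_le_one (by positivity)]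
          exact one_le_pow₀ (by linarith [Nat.cast_nonneg (α := ℝ) m])
        have h4 : (0 : ℝ) ≤ 1 / 4 * (1 / 2) ^ m := by positivity
        calc (1 / 4 : ℝ) * (1 / 2) ^ m * (1 / ((m : ℝ) + 2) ^ 4)
            ≤ 1 / 4 * (1 / 2) ^ m * 1 := mul_le_mul_of_nonneg_left h3 h4
          _ = (1 / 2) ^ (m + 2) := by rw [pow_add]; ring
      have h5 : Real.log ρ ≤ Real.log ((1 / 2) ^ (m + 2)) :=
        Real.log_le_log hρ (h1.le.trans h2)
      rw [Real.log_pow, one_div, Real.log_inv] at h5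
      have h6 := Real.log_two_gt_d9
      have h7 : (0 : ℝ) ≤ (m : ℝ) := Nat.cast_nonneg m
      have h8 : -Real.log ρ ≤ |Real.log ρ| := neg_le_abs _
      push_cast at h5 ⊢
      nlinarith
  have h5 : (((N : ℝ) + 2) / 2) ^ 4 ≤ (1 + |Real.log ρ|) ^ 4 :=
    pow_le_pow_left₀ (by positivity) hL 4
  have h6 : ((2 : ℝ) ^ N)⁻¹ = 64 * (sp N * (((N : ℝ) + 2) / 2) ^ 4) := by
    unfold sp
    rw [one_div_pow]
    field_simp
    ring
  rw [h6]
  have h7 : 0 ≤ sp N := (sp_pos N).le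
  have h8 : sp N * (((N : ℝ) + 2) / 2) ^ 4 ≤ ρ * (1 + |Real.log ρ|) ^ 4 :=
    mul_le_mul hNs h5 (by positivity) hρ.le
  linarith

theorem chord {s t : ℝ} (hs : s ∈ Icc (0 : ℝ) (1 / 4)) (ht : t ∈ Icc (0 : ℝ) (1 / 4)) :
    |s - t| ≤ ‖ex s - ex t‖ := by
  wlog hst : t ≤ s generalizing s t
  · rw [abs_sub_comm, norm_sub_rev]
    exact this ht hs (le_of_not_ge hst)
  have hpi := Real.pi_pos
  have e : ex s - ex t = ex t * (Complex.exp (Complex.I * ((2 * Real.pi * (s - t) : ℝ) : ℂ)) - 1) := by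
    unfold ex
    rw [mul_sub, mul_one, ← Complex.exp_add]
    congr 2
    push_cast
    ring
  have hn : ‖ex t‖ = 1 := by
    unfold ex
    rw [Complex.norm_exp]
    simp
  rw [e, norm_mul, hn, one_mul, Complex.norm_exp_I_mul_ofReal_sub_one]
  have h1 : 2 * Real.pi * (s - t) / 2 = Real.pi * (s - t) := by ring
  rw [h1]
  have h2 := Real.mul_le_sin (x := Real.pi * (s - t)) (by nlinarith)
    (by nlinarith [hs.1, hs.2, ht.1, ht.2])
  have h3 : 2 / Real.pi * (Real.pi * (s - t)) = 2 * (s - t) := by field_simp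
  rw [h3] at h2
  rw [abs_of_nonneg (by linarith), Real.norm_eq_abs]
  refine le_trans ?_ (le_abs_self _)
  linarith

theorem key_diam (hKs : KK ⊆ Icc (0 : ℝ) (1 / 4)) (P : ℂ → ℂ) (U : Set E) :
    ediam (ff '' {t | t ∈ KK ∧ pt (ex t) (P (ex t)) ∈ U}) ≤ 64 * gauge (ediam U) := by
  by_cases htop : ediam U = ⊤
  · rw [htop, gauge]
    simp
  refine ediam_le ?_
  rintro _ ⟨_, ⟨⟨w, rfl⟩, hxU⟩, rfl⟩ _ ⟨_, ⟨⟨w', rfl⟩, hyU⟩, rfl⟩
  rw [ff_cc, ff_cc, edist_dist, Real.dist_eq]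
  by_cases hw : w = w'
  · subst hw
    simp
  obtain ⟨n, h1, h2⟩ := first_diff hw
  have h3 := cc_sep h1 h2
  have h4 : |yy w - yy w'| ≤ ((2 : ℝ) ^ n)⁻¹ := by
    have := Real.abs_ofDigits_sub_ofDigits_le (b := 2) (n := n)
      (x := fun k => if w k then 1 else 0) (y := fun k => if w' k then 1 else 0)
      (fun i hi => by simp only [h1 i hi])
    exact_mod_cast this
  have h5 : |cc w - cc w'| ≤ (ediam U).toReal := by
    refine (chord (hKs ⟨w, rfl⟩) (hKs ⟨w', rfl⟩)).trans ?_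
    have h6 : ‖ex (cc w) - ex (cc w')‖ ≤
        dist (pt (ex (cc w)) (P (ex (cc w)))) (pt (ex (cc w')) (P (ex (cc w')))) := by
      rw [dist_eq_norm]
      have h7 := WithLp.prod_norm_sq_eq_of_L2
        (pt (ex (cc w)) (P (ex (cc w))) - pt (ex (cc w')) (P (ex (cc w'))))
      refine le_of_sq_le_sq ?_ (norm_nonneg _)
      rw [h7]
      have h8 : (pt (ex (cc w)) (P (ex (cc w))) - pt (ex (cc w')) (P (ex (cc w')))).fst =
          ex (cc w) - ex (cc w') := rfl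
      rw [h8]
      nlinarith [sq_nonneg ‖(pt (ex (cc w)) (P (ex (cc w))) -
        pt (ex (cc w')) (P (ex (cc w')))).snd‖]
    refine h6.trans ?_
    rw [dist_edist]
    exact ENNReal.toReal_mono htop (edist_le_ediam_of_mem hxU hyU)
  have h9 := h4.trans (num (h3.trans h5))
  refine (ENNReal.ofReal_le_ofReal h9).trans (le_of_eq ?_)
  rw [gauge, ENNReal.ofReal_mul (by norm_num), ENNReal.ofReal_mul ENNReal.toReal_nonneg,
    ENNReal.ofReal_toReal htop]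
  norm_num

theorem cover (hKs : KK ⊆ Icc (0 : ℝ) (1 / 4)) (P : ℂ → ℂ) {S : Set E}
    (hS : ∀ x ∈ KK, pt (ex x) (P (ex x)) ∈ S) (U : ℕ → Set E) (hU : S ⊆ ⋃ n, U n) :
    1 / 64 ≤ ∑' n, gauge (ediam (U n)) := by
  have h1 : Ico (0 : ℝ) 1 ⊆ ⋃ n, ff '' {t | t ∈ KK ∧ pt (ex t) (P (ex t)) ∈ U n} := by
    intro x hx
    obtain ⟨t, ht, rfl⟩ := Ico_sub hx
    obtain ⟨n, hn⟩ := mem_iUnion.1 (hU (hS t ht))
    exact mem_iUnion.2 ⟨n, t, ⟨ht, hn⟩, rfl⟩
  have h2 : (1 : ℝ≥0∞) ≤ ∑' n, 64 * gauge (ediam (U n)) := by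
    calc (1 : ℝ≥0∞) = volume (Ico (0 : ℝ) 1) := by simp
      _ ≤ volume (⋃ n, ff '' {t | t ∈ KK ∧ pt (ex t) (P (ex t)) ∈ U n}) := measure_mono h1
      _ ≤ ∑' n, volume (ff '' {t | t ∈ KK ∧ pt (ex t) (P (ex t)) ∈ U n}) := measure_iUnion_le _
      _ ≤ ∑' n, 64 * gauge (ediam (U n)) := ENNReal.tsum_le_tsum fun n =>
        (Real.volume_le_diam _).trans (key_diam hKs P (U n))
  rw [ENNReal.tsum_mul_left] at h2
  rw [one_div]
  refine ENNReal.inv_le_iff_le_mul ?_ ?_ |>.2 ?_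
  · intro _
    norm_num
  · intro h
    norm_num at h
  · exact h2

end Pool.Agent.Y305.HG
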